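import Pool.Agent.V11286.RL.CovG
import Pool.Agent.Results.MP_1bad5e_ag.HyperellipticSurfaces

/-!
# The Tate conjecture over number fields for one of few translates of every surface `y ^ 2 = D(t) (x - b 1(t)) ⋯ (x - b n(t))`

Let `k₀` be a number field, `O₀` its ring of integers, `n = 2 g + 1 ≥ 3`, and let `b 1, …, b n` be polynomials over `O₀`
with all the differences of the same degree `N ≥ 1` and the product of the differences squarefree over `k₀`. Let `k` be a
finite extension of `k₀` which contains a square root of `-1`.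

There is a constant `C` such that for all large `m` with `m + N` odd there are `C m` polynomials `F_1, …, F_(C m)` over
`O₀` of degree less than `m` such that for EVERY monic polynomial `D` of degree `m` over `O₀` (there are infinitely many)
at least one of the surfaces `y ^ 2 = (D + F_i) (x - b 1) ⋯ (x - b n)` has the property of the theorem in
`HyperellipticSurfaces` (a reduction modulo some prime for which the Jacobian of the generic fibre has rank zero and no
everywhere locally trivial classes of order a power of 2), which implies the Tate conjecture for the divisors on it.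
-/

set_option autoImplicit false

namespace Pool.Agent.Results.MP_1bad5e_ag.FewTranslatesCover

open Polynomial Filter NumberField Pool.Agent.V11286.RL
open Pool.Agent.Results.MP_1bad5e_ag.HyperellipticSurfaces

/-- **Theorem.** -/
theorem result {k₀ k : Type} [Field k₀] [NumberField k₀] [Field k] [NumberField k] [Algebra k₀ k]
    (hi : IsSquare (-1 : k)) {n : ℕ} (hn : Odd n) (hn3 : 3 ≤ n) {N : ℕ} (hN : 1 ≤ N)
    (b : Fin n → (𝓞 k₀)[X]) (hb : ∀ i j, i ≠ j → (b i - b j).natDegree = N)
    (hs : Squarefree ((differences b).map (algebraMap (𝓞 k₀) k₀))) :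
    ∃ C : ℕ, ∀ᶠ m : ℕ in atTop, Odd (m + N) → ∃ F : Fin (C * m) → (𝓞 k₀)[X], (∀ i, (F i).degree < m) ∧
      ∀ D : (𝓞 k₀)[X], D.Monic → D.natDegree = m →
        ∃ i, IsGoodModuloPrime N (fun i => overIntegers k (b i)) (overIntegers k (D + F i)) := by
  obtain ⟨M, hM, h⟩ := HyperellipticSurfaces.result hi hn hn3 hN b hb hs (1 / 2) (by norm_num)
  refine ⟨Nat.card (𝓞 k₀ ⧸ M), ?_⟩
  filter_upwards [h, eventually_ge_atTop 1] with m hm hm1 h1
  have h3 := hm h1
  have hfin : Finite (𝓞 k₀ ⧸ M) := Ideal.finiteQuotientOfFreeOfNeBot M hM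
  have hq0 : 0 < Nat.card (𝓞 k₀ ⧸ M) := Nat.card_pos
  have hMt : M ≠ ⊤ := by
    intro htop
    have hsub : Subsingleton (𝓞 k₀ ⧸ M) := Ideal.Quotient.subsingleton_iff.2 htop
    have h4 : goodClasses k N b M m = ∅ := by
      rw [Set.eq_empty_iff_forall_notMem]
      rintro P ⟨-, h5, -⟩
      have h6 : P = 0 := Subsingleton.elim _ _
      rw [h6, natDegree_zero] at h5
      omega
    rw [h4, Set.ncard_empty, Nat.cast_zero] at h3
    have h8 : 0 < (1 - 1 / 2 : ℝ) * (Nat.card (𝓞 k₀ ⧸ M) : ℝ) ^ m := mul_pos (by norm_num) (by positivity)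
    linarith
  have hnt : Nontrivial (𝓞 k₀ ⧸ M) := Ideal.Quotient.nontrivial_iff.2 hMt
  obtain ⟨F, hF, hcov⟩ := few_mon (μ := 1 / 2) (m := m) (r := Nat.card (𝓞 k₀ ⧸ M) * m) (by norm_num)
    (goodClasses k N b M m) (fun P hP => ⟨hP.1, hP.2.1⟩) h3 (by
      rw [pow_mul, ← mul_pow]
      apply pow_lt_one₀ (by positivity) _ (by omega)
      have h5 : (Nat.card (𝓞 k₀ ⧸ M) : ℝ) < 2 ^ Nat.card (𝓞 k₀ ⧸ M) := by exact_mod_cast Nat.lt_two_pow_self
      rw [one_div, inv_pow, inv_mul_lt_iff₀ (by positivity), mul_one]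
      exact h5)
  have hlift : ∀ i, ∃ G : (𝓞 k₀)[X], G.map (Ideal.Quotient.mk M) = F i ∧ G.degree < m := by
    intro i
    obtain ⟨G, hG1, hG2⟩ := exists_degree_eq_of_mem_lifts (f := Ideal.Quotient.mk M) (p := F i)
      ((mem_lifts _).2 (map_surjective _ Ideal.Quotient.mk_surjective _))
    exact ⟨G, hG1, hG2 ▸ mem_degreeLT.1 (hF i)⟩
  choose G hG1 hG2 using hlift
  refine ⟨G, hG2, fun D hD hDm => ?_⟩
  obtain ⟨i, hi'⟩ := hcov (D.map (Ideal.Quotient.mk M)) ⟨hD.map _, by rw [hD.natDegree_map, hDm]⟩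
  refine ⟨i, hi'.2.2 (D + G i) (hD.add_of_left ?_) ?_⟩
  · rw [degree_eq_natDegree hD.ne_zero, hDm]
    exact hG2 i
  · rw [Polynomial.map_add, hG1]

end Pool.Agent.Results.MP_1bad5e_ag.FewTranslatesCover
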