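import Pool.Agent.V11286.RL.Trans
import Pool.Agent.Results.MP_1bad5e_ag.HyperellipticSurfaces

/-!
# The Tate conjecture over number fields, simultaneously for the surfaces `y ^ 2 = D'(t) (x - b 1(t)) ⋯ (x - b n(t))` given
# by all the translates `D'` of `D`

Let `k₀` be a number field, `O₀` its ring of integers, `n = 2 g + 1 ≥ 3`, and let `b 1, …, b n` be polynomials over `O₀`
with all the differences of the same degree `N ≥ 1` and the product of the differences squarefree over `k₀`. Let `k` be a
finite extension of `k₀` which contains a square root of `-1`.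

For every `r` and `η > 0` there is a nonzero ideal `M` of `O₀` such that for all large `m` with `m + N` odd, and for ALL
`c_1, …, c_r` in `O₀` and all polynomials `E_1, …, E_r` over `O₀` of degree less than `m`, however large: for at least the
proportion `1 - η` of the monic polynomials `P` of degree `m` over `O₀ / M`, for every monic `D` over `O₀` congruent to
`P` modulo `M`, ALL the surfaces `y ^ 2 = D'(t) (x - b 1(t)) ⋯ (x - b n(t))`, `D' = D(t + c_i) + E_i(t)`, have the property
of the theorem in `HyperellipticSurfaces` (a reduction modulo some prime for which the Jacobian of the generic fibre has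
rank zero and no everywhere locally trivial classes of order a power of 2), which implies the Tate conjecture for the
divisors on the surface. For example there are arithmetic progressions `D, D + E, …, D + (r - 1) E` of any length and with
any difference `E` of this kind.
-/

set_option autoImplicit false

namespace Pool.Agent.Results.MP_1bad5e_ag.TranslatesOfSurfaces

open Polynomial Filter NumberField Pool.Agent.V11286.RL
open Pool.Agent.Results.MP_1bad5e_ag.HyperellipticSurfaces

/-- The monic polynomials `P` of degree `m` over `O₀ / M` such that for all monic polynomials `D` over `O₀` congruent to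
`P` modulo `M` all the polynomials `D(t + c_i) + E_i` are good modulo a prime of `k` (see `IsGoodModuloPrime` in
`HyperellipticSurfaces`). -/
def goodClassesAll {k₀ : Type} [Field k₀] [NumberField k₀] (k : Type) [Field k] [NumberField k] [Algebra k₀ k] {n : ℕ}
    (N : ℕ) (b : Fin n → (𝓞 k₀)[X]) (M : Ideal (𝓞 k₀)) (m : ℕ) {r : ℕ} (c : Fin r → 𝓞 k₀) (E : Fin r → (𝓞 k₀)[X]) :
    Set (𝓞 k₀ ⧸ M)[X] :=
  {P | P.Monic ∧ P.natDegree = m ∧ ∀ D : (𝓞 k₀)[X], D.Monic → D.map (Ideal.Quotient.mk M) = P →
    ∀ i, IsGoodModuloPrime N (fun i => overIntegers k (b i)) (overIntegers k (D.comp (X + C (c i)) + E i))}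

/-- **Theorem.** -/
theorem result {k₀ k : Type} [Field k₀] [NumberField k₀] [Field k] [NumberField k] [Algebra k₀ k]
    (hi : IsSquare (-1 : k)) {n : ℕ} (hn : Odd n) (hn3 : 3 ≤ n) {N : ℕ} (hN : 1 ≤ N)
    (b : Fin n → (𝓞 k₀)[X]) (hb : ∀ i j, i ≠ j → (b i - b j).natDegree = N)
    (hs : Squarefree ((differences b).map (algebraMap (𝓞 k₀) k₀))) (r : ℕ) (η : ℝ) (hη : 0 < η) :
    ∃ M : Ideal (𝓞 k₀), M ≠ ⊥ ∧ ∀ᶠ m : ℕ in atTop, Odd (m + N) →
      ∀ (c : Fin r → 𝓞 k₀) (E : Fin r → (𝓞 k₀)[X]), (∀ i, (E i).degree < m) →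
      (1 - η) * (Nat.card (𝓞 k₀ ⧸ M) : ℝ) ^ m ≤ ((goodClassesAll k N b M m c E).ncard : ℝ) := by
  obtain ⟨η', hη'⟩ : ∃ η' : ℝ, η' = min η (1 / 2) / (r + 1) := ⟨_, rfl⟩
  have hr1 : (0 : ℝ) < (r : ℝ) + 1 := by positivity
  have hmin : 0 < min η (1 / 2) := lt_min hη (by norm_num)
  have hη0 : 0 < η' := by rw [hη']; positivity
  have hη1 : η' < 1 := by
    rw [hη', div_lt_one hr1]
    have h1 : min η (1 / 2) ≤ 1 / 2 := min_le_right _ _
    have h2 : (0 : ℝ) ≤ r := Nat.cast_nonneg r
    linarith
  have hηr : r * η' ≤ η := by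
    rw [hη', ← mul_div_assoc, div_le_iff₀ hr1]
    have h1 : min η (1 / 2) ≤ η := min_le_left _ _
    have h2 : (0 : ℝ) ≤ r := Nat.cast_nonneg r
    nlinarith
  obtain ⟨M, hM, h⟩ := HyperellipticSurfaces.result hi hn hn3 hN b hb hs η' hη0
  refine ⟨M, hM, ?_⟩
  filter_upwards [h, eventually_ge_atTop 1] with m hm hm1 h1 c E hE
  have h3 := hm h1
  have hfin : Finite (𝓞 k₀ ⧸ M) := Ideal.finiteQuotientOfFreeOfNeBot M hM
  have hMt : M ≠ ⊤ := by
    intro htop
    have hsub : Subsingleton (𝓞 k₀ ⧸ M) := Ideal.Quotient.subsingleton_iff.2 htop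
    have h4 : goodClasses k N b M m = ∅ := by
      rw [Set.eq_empty_iff_forall_notMem]
      rintro P ⟨-, h5, -⟩
      have h6 : P = 0 := Subsingleton.elim _ _
      rw [h6, natDegree_zero] at h5
      omega
    rw [h4, Set.ncard_empty, Nat.cast_zero] at h3
    have h7 : 0 < Nat.card (𝓞 k₀ ⧸ M) := Nat.card_pos
    have h8 : 0 < (1 - η') * (Nat.card (𝓞 k₀ ⧸ M) : ℝ) ^ m := mul_pos (by linarith) (by positivity)
    linarith
  have h5 := simul hMt hfin (fun D => IsGoodModuloPrime N (fun i => overIntegers k (b i)) (overIntegers k D)) h3 c E hE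
  refine le_trans ?_ h5
  apply mul_le_mul_of_nonneg_right _ (by positivity)
  linarith

end Pool.Agent.Results.MP_1bad5e_ag.TranslatesOfSurfaces
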